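import Mathlib
import Pool.Agent.Lib_helper68.DTEval

set_option autoImplicit false

open Finset Filter Topology

namespace Pool.Agent.Results.MP_2bfcc9_nt.ExplicitConstant

/-- `S` is a `D(n)`-`m`-tuple: a set of `m` distinct positive integers such that `a b + n` is the
square of an integer for any two distinct elements `a`, `b` of `S`. -/
def IsTuple (n : ℤ) (m : ℕ) (S : Finset ℕ) : Prop :=
  S.card = m ∧ (∀ a ∈ S, 0 < a) ∧
    ∀ a ∈ S, ∀ b ∈ S, a ≠ b → ∃ r : ℤ, (a : ℤ) * (b : ℤ) + n = r ^ 2

/-- `D_{m,n}(N)`: the number of `D(n)`-`m`-tuples contained in `{1, ..., N}`. -/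
noncomputable def tupleCount (m : ℕ) (n : ℤ) (N : ℕ) : ℕ :=
  Nat.card {S : Finset ℕ // IsTuple n m S ∧ ∀ a ∈ S, a ≤ N}

/-- The number of residue classes `t` modulo `c` with `t ^ 2 ≡ n` modulo `c`. -/
def rootCount (n : ℤ) (c : ℕ) : ℕ :=
  ((Finset.range c).filter (fun t : ℕ => (c : ℤ) ∣ (t : ℤ) ^ 2 - n)).card

/-- The quadratic character `m ↦ (n/m)` (Jacobi symbol) modulo `4|n|`: it is zero when `m` has a
common factor with `2n`. -/
def quadChar (n : ℤ) (m : ℕ) : ℤ := if m.Coprime (2 * n.natAbs) then jacobiSym n m else 0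

/-- The sum `1 + ρ(p)/p + ρ(p²)/p² + ...`, where `ρ(c)` is the number of square roots of `n`
modulo `c`. -/
noncomputable def localSum (n : ℤ) (p : ℕ) : ℝ := ∑' k : ℕ, (rootCount n (p ^ k) : ℝ) / (p : ℝ) ^ k

/-- The constant for a perfect square `n`. -/
noncomputable def squareConst (n : ℤ) : ℝ :=
  3 / Real.pi ^ 2 * ∏ p ∈ (2 * n.natAbs).primeFactors, (((p : ℝ) - 1) / (p + 1) * localSum n p)

/-- The constant for `n` not a perfect square, where `L` is the value at `1` of the series of the
quadratic character. -/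
noncomputable def nonsquareConst (n : ℤ) (L : ℝ) : ℝ :=
  3 / Real.pi ^ 2 * L * ∏ p ∈ (2 * n.natAbs).primeFactors, ((p : ℝ) / (p + 1) * localSum n p)

lemma rootCount_eq (n : ℤ) (c : ℕ) : rootCount n c = Pool.Agent.Lib_helper91.rho n c := rfl

lemma quadChar_eq (n : ℤ) (m : ℕ) : quadChar n m = Pool.Agent.Lib_helper91.chi n m := rfl

lemma tupleCount_eq (n : ℤ) (N : ℕ) :
    tupleCount 3 n N = (Pool.Agent.Lib_helper91.T3 n N).card := by
  rw [← Pool.Agent.Lib_helper91.ncard_eq_T3]
  unfold tupleCount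
  rw [← Nat.card_coe_set_eq]
  apply Nat.card_congr
  apply Equiv.subtypeEquivRight
  intro S
  constructor
  · rintro ⟨⟨h1, h2, h3⟩, h4⟩
    refine ⟨fun a ha => Finset.mem_Icc.mpr ⟨h2 a ha, h4 a ha⟩, h1, fun a ha b hb hab => ?_⟩
    obtain ⟨r, hr⟩ := h3 a ha b hb hab
    exact ⟨r, by rw [hr, sq]⟩
  · rintro ⟨h1, h2, h3⟩
    refine ⟨⟨h2, fun a ha => (Finset.mem_Icc.mp (h1 ha)).1, fun a ha b hb hab => ?_⟩,
      fun a ha => (Finset.mem_Icc.mp (h1 ha)).2⟩
    obtain ⟨r, hr⟩ := h3 a ha b hb hab
    exact ⟨r, by rw [hr, sq]⟩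

/-- For every nonzero integer `n` the number of `D(n)`-triples in `{1, ..., N}` is asymptotic to
`C(n) N log N` if `n` is a perfect square and to `C(n) N` otherwise, with an explicit positive
constant `C(n)`. -/
theorem result (n : ℤ) (hn : n ≠ 0) :
    (∀ p : ℕ, p.Prime → Summable fun k : ℕ => (rootCount n (p ^ k) : ℝ) / (p : ℝ) ^ k) ∧
    ((∃ s : ℤ, n = s ^ 2) → 0 < squareConst n ∧
      Tendsto (fun N : ℕ => (tupleCount 3 n N : ℝ) / ((N : ℝ) * Real.log N)) atTop
        (𝓝 (squareConst n))) ∧
    ((¬ ∃ s : ℤ, n = s ^ 2) → ∃ L : ℝ, 0 < L ∧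
      Tendsto (fun M : ℕ => ∑ m ∈ Finset.Icc 1 M, (quadChar n m : ℝ) / m) atTop (𝓝 L) ∧
      0 < nonsquareConst n L ∧
      Tendsto (fun N : ℕ => (tupleCount 3 n N : ℝ) / (N : ℝ)) atTop (𝓝 (nonsquareConst n L))) := by
  classical
  refine ⟨fun p hp => Pool.Agent.Lib_helper91.loc_summable hn hp, ?_, ?_⟩
  · rintro ⟨s, hs⟩
    have hsq : IsSquare n := ⟨s, by rw [hs, sq]⟩
    have hA := Pool.Agent.Lib_helper91.principal_value hn hsq
    have hκ := Pool.Agent.Lib_helper91.kap_pos hn
    obtain ⟨hB, hBl⟩ := Pool.Agent.Lib_helper91.rho_sum_value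
      Pool.Agent.Lib_helper91.goodWeight_log hn (mul_pos hκ hκ).ne' hA
    obtain ⟨K, hK0, hK⟩ := Pool.Agent.Lib_helper91.T3_approx hn
    have hval : squareConst n = _ := (Pool.Agent.Lib_helper91.factor_square hn).symm
    refine ⟨by rw [hval]; exact half_pos hB, ?_⟩
    have hlogtop : Tendsto (fun N : ℕ => 1 + Real.log (N : ℝ)) atTop atTop :=
      tendsto_atTop_add_const_left _ _ (Real.tendsto_log_atTop.comp tendsto_natCast_atTop_atTop)
    have h1 := Pool.Agent.Lib_helper91.transfer
      (F := fun N : ℕ => 2 * ((Pool.Agent.Lib_helper91.T3 n N).card : ℝ))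
      (E := fun N => 2 * ((Pool.Agent.Lib_helper91.Irr n N).card : ℝ) + K + 2 * (N : ℝ))
      (w := fun N : ℕ => (N : ℝ) * (1 + Real.log N))
      (by
        filter_upwards [eventually_ge_atTop (2 * n.natAbs)] with N hN
        have := hK N hN
        rw [if_pos hsq] at this
        exact this)
      (by
        filter_upwards [eventually_ge_atTop 1] with N hN
        exact Pool.Agent.Lib_helper91.goodWeight_log.pos N hN) hBl
      (by
        have h2 := (((Pool.Agent.Lib_helper91.irr_tendsto hn).const_mul 2).add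
          (tendsto_const_div_atTop_nhds_zero_nat K)).add_const (2 : ℝ)
        rw [mul_zero, add_zero, zero_add] at h2
        have h3 := h2.div_atTop hlogtop
        refine h3.congr' ?_
        filter_upwards [eventually_ge_atTop 1] with N hN
        have hN' : (0 : ℝ) < N := by exact_mod_cast hN
        have hl : 0 < 1 + Real.log (N : ℝ) := by
          have := Real.log_natCast_nonneg N
          linarith
        field_simp)
    have h2 := h1.div_const 2
    rw [← hval] at h2
    have hl1 : Tendsto (fun N : ℕ => Real.log (N : ℝ)) atTop atTop :=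
      Real.tendsto_log_atTop.comp tendsto_natCast_atTop_atTop
    have h3 : Tendsto (fun N : ℕ => (1 + Real.log (N : ℝ)) / Real.log (N : ℝ)) atTop (𝓝 1) := by
      have h2 : Tendsto (fun N : ℕ => 1 / Real.log (N : ℝ) + 1) atTop (𝓝 (0 + 1)) :=
        (hl1.const_div_atTop 1).add_const 1
      rw [zero_add] at h2
      refine h2.congr' ?_
      filter_upwards [eventually_ge_atTop 2] with N hN
      have : 0 < Real.log (N : ℝ) := Real.log_pos (by exact_mod_cast hN)
      field_simp
    have h4 := h2.mul h3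
    rw [mul_one] at h4
    refine h4.congr' ?_
    filter_upwards [eventually_ge_atTop 2] with N hN
    have hN' : (0 : ℝ) < N := by
      have : 0 < N := by omega
      exact_mod_cast this
    have hl : 0 < Real.log (N : ℝ) := Real.log_pos (by exact_mod_cast hN)
    rw [tupleCount_eq]
    field_simp
  · intro hs
    have hsq : ¬ IsSquare n := by
      rintro ⟨s, h⟩
      exact hs ⟨s, by rw [h, sq]⟩
    obtain ⟨L, hL0, hL, hA⟩ := Pool.Agent.Lib_helper91.nonprincipal_value hn hsq
    have hκ := Pool.Agent.Lib_helper91.kap_pos hn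
    obtain ⟨hB, hBl⟩ := Pool.Agent.Lib_helper91.rho_sum_value
      Pool.Agent.Lib_helper91.goodWeight_id hn (mul_ne_zero hκ.ne' hL0) hA
    obtain ⟨K, hK0, hK⟩ := Pool.Agent.Lib_helper91.T3_approx hn
    have hval : nonsquareConst n L = _ := (Pool.Agent.Lib_helper91.factor_nonsquare hn L).symm
    have hLpos : 0 < L := by
      have h1 := Pool.Agent.Lib_helper91.rhoBadA_tsum_pos hn
      have h2 := Pool.Agent.Lib_helper91.hA_tsum_pos n
      have h3 := pos_of_mul_pos_right hB h1.le
      have h4 := pos_of_mul_pos_right h3 h2.le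
      exact pos_of_mul_pos_right h4 hκ.le
    refine ⟨L, hLpos, ?_, by rw [hval]; exact half_pos hB, ?_⟩
    · refine hL.congr ?_
      intro M
      have : Finset.Icc 1 M = Finset.Ioc 0 M := by ext x; simp only [mem_Icc, mem_Ioc]; omega
      rw [this]
      rfl
    have h1 := Pool.Agent.Lib_helper91.transfer
      (F := fun N : ℕ => 2 * ((Pool.Agent.Lib_helper91.T3 n N).card : ℝ))
      (E := fun N => 2 * ((Pool.Agent.Lib_helper91.Irr n N).card : ℝ) + K)
      (w := fun N : ℕ => (N : ℝ))
      (by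
        filter_upwards [eventually_ge_atTop (2 * n.natAbs)] with N hN
        have := hK N hN
        rw [if_neg hsq, add_zero] at this
        exact this)
      (by
        filter_upwards [eventually_ge_atTop 1] with N hN
        exact_mod_cast hN) hBl
      (by
        have h2 := ((Pool.Agent.Lib_helper91.irr_tendsto hn).const_mul 2).add
          (tendsto_const_div_atTop_nhds_zero_nat K)
        rw [mul_zero, add_zero] at h2
        refine h2.congr ?_
        intro N
        ring)
    have h2 := h1.div_const 2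
    rw [← hval] at h2
    refine h2.congr ?_
    intro N
    rw [tupleCount_eq]
    ring

end Pool.Agent.Results.MP_2bfcc9_nt.ExplicitConstant
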